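import Pool.Agent.H54.RH.Targets

/-!
# Board `rhx_modules`, row K7: a closed walk with a change of sign excludes orientability
-/

set_option autoImplicit false

open Pool.Agent.H54.RH

namespace Pool.Agent.H94.RHX

theorem range_filter_length (n : ℕ) (p : ℕ → Bool) :
    ((List.range n).filter p).length =
      (Finset.univ.filter fun t : Fin n => p t.val = true).card := by
  rw [← List.map_coe_finRange_eq_range, List.filter_map, List.length_map, Fin.univ_def]
  change _ = Multiset.card (Multiset.filter (fun t : Fin n => p t.val = true)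
    (↑(List.finRange n) : Multiset (Fin n)))
  rw [Multiset.filter_coe, Multiset.coe_card]
  congr 1
  apply List.filter_congr
  intro t _
  simp

theorem cbt_eq {n : ℕ} (h : W n) (k l : Fin n) (hd : ∀ t : Fin n, dg (cd h) t.val = (h t).val) :
    cbt n (cd h) k.val l.val = btw h k l := by
  unfold cbt Pool.Agent.H54.RH.btw
  rw [range_filter_length]
  congr 1
  apply Finset.filter_congr
  intro t _
  have h1 : (h t).val = 1 ↔ h t = 1 := by
    constructor
    · intro h2
      exact Fin.ext h2
    · intro h2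
      rw [h2]
      rfl
  simp only [hd t, Bool.and_eq_true, Bool.or_eq_true, beq_iff_eq, Nat.blt_eq, h1, Fin.lt_def]

theorem bool_aux : ∀ A B C p p1 : Bool, (A = C ↔ p1 = (p != true)) → C ≠ B →
    (A = B ↔ p1 = p) := by
  decide

theorem walk_sign {n s : ℕ} (h0 : T_K0) (sg : W n → Bool)
    (hs : ∀ h ∈ MS n s, ∀ k l, h k = 1 → h l ≠ 1 → sw h k l ∈ MS n s →
      (sg (sw h k l) = sg h ↔ Odd (btw h k l))) (r : List (ℕ × ℕ)) :
    ∀ (c : ℕ) (p : Bool) (c1 : ℕ) (p1 : Bool) (h : W n), walk n s c p r = some (c1, p1) →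
      cd h = c → h ∈ MS n s →
      ∃ h1 : W n, cd h1 = c1 ∧ h1 ∈ MS n s ∧ (sg h1 = sg h ↔ p1 = p) := by
  induction r with
  | nil =>
    intro c p c1 p1 h hw hc hm
    simp only [walk, Option.some.injEq, Prod.mk.injEq] at hw
    exact ⟨h, by rw [hc, hw.1], hm, by rw [hw.2]; simp⟩
  | cons kl r ih =>
    obtain ⟨k, l⟩ := kl
    intro c p c1 p1 h hw hc hm
    rw [walk] at hw
    split_ifs at hw with hcond
    simp only [Bool.and_eq_true, Nat.blt_eq, beq_iff_eq, bne_iff_ne, ne_eq] at hcond
    obtain ⟨⟨⟨⟨hk, hl⟩, hdk⟩, hdl⟩, hbit⟩ := hcond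
    obtain ⟨-, hd, -, -, hsw⟩ := h0 n h
    let K : Fin n := ⟨k, hk⟩
    let L : Fin n := ⟨l, hl⟩
    have hK : h K = 1 := by
      have := hd K
      rw [hc] at this
      exact Fin.ext (by rw [← this]; exact hdk)
    have hL : h L ≠ 1 := by
      intro h2
      have := hd L
      rw [hc, h2] at this
      exact hdl this
    have hcd : cd (sw h K L) = csw c k l := by
      have := hsw K L
      rw [hc] at this
      exact this
    have hm' : sw h K L ∈ MS n s := by
      unfold MS
      rw [Finset.mem_filter]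
      exact ⟨Finset.mem_univ _, by rw [hcd]; exact hbit⟩
    obtain ⟨h1, hh1, hh2, hh3⟩ := ih _ _ c1 p1 (sw h K L) hw hcd hm'
    refine ⟨h1, hh1, hh2, ?_⟩
    have h4 := hs h hm K L hK hL hm'
    have h5 : cbt n c k l = btw h K L := by
      have := cbt_eq h K L hd
      rw [hc] at this
      exact this
    rw [h5] at hh3
    by_cases hodd : Odd (btw h K L)
    · have h6 : (btw h K L % 2 == 0) = false := by
        rw [beq_eq_false_iff_ne]
        intro h7
        rw [Nat.odd_iff] at hodd
        omega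
      have h8 := h4.2 hodd
      rw [h6] at hh3
      rw [h8] at hh3
      rw [hh3]
      cases p <;> simp
    · have h6 : (btw h K L % 2 == 0) = true := by
        rw [beq_iff_eq]
        rw [Nat.odd_iff] at hodd
        omega
      have h8 : sg (sw h K L) ≠ sg h := fun h9 => hodd (h4.1 h9)
      rw [h6] at hh3
      exact bool_aux _ _ _ _ _ hh3 h8

theorem pf_K7 (h0 : T_K0) : T_K7 := by
  intro n s c0 r hck
  rintro ⟨sg, hs⟩
  unfold ck7 at hck
  simp only [Bool.and_eq_true, Nat.blt_eq, beq_iff_eq] at hck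
  obtain ⟨⟨hlt, hbit⟩, hwalk⟩ := hck
  obtain ⟨g, hg⟩ := (h0 n (fun _ => 0)).2.2.1 c0 hlt
  have hgm : g ∈ MS n s := by
    unfold MS
    rw [Finset.mem_filter]
    exact ⟨Finset.mem_univ _, by rw [hg]; exact hbit⟩
  obtain ⟨h1, hh1, -, hh3⟩ := walk_sign h0 sg hs r c0 false c0 true g hwalk hg hgm
  have h2 : h1 = g := (h0 n (fun _ => 0)).2.2.2.1 (hh1.trans hg.symm)
  rw [h2] at hh3
  simp at hh3

end Pool.Agent.H94.RHX
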